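import Mathlib

namespace Pool.Agent.Results.MP_52c232_nt.Exists

theorem result : ∃ (n : ℕ) (A : Matrix (Fin n) (Fin n) ℤ), 1 ≤ n ∧
    (∀ i j, A i j ≠ -1 ∧ A i j ≠ 0 ∧ A i j ≠ 1) ∧
    A.det = 1 ∧ (A.map (fun a => a ^ 3)).det = 1 := by
  refine ⟨4, !![2, 3, 2, 5; 5, 6, 3, 5; 5, 5, 2, 2; 3, 4, 2, 2], by norm_num, ?_, ?_, ?_⟩
  · intro i j
    fin_cases i <;> fin_cases j <;> simp
  · simp [Matrix.det_succ_row_zero, Fin.sum_univ_succ, Fin.succAbove]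
  · have : (!![2, 3, 2, 5; 5, 6, 3, 5; 5, 5, 2, 2; 3, 4, 2, 2] : Matrix (Fin 4) (Fin 4) ℤ).map
        (fun a => a ^ 3) = !![8, 27, 8, 125; 125, 216, 27, 125; 125, 125, 8, 8; 27, 64, 8, 8] := by
      ext i j
      fin_cases i <;> fin_cases j <;> simp
    rw [this]
    simp [Matrix.det_succ_row_zero, Fin.sum_univ_succ, Fin.succAbove]

end Pool.Agent.Results.MP_52c232_nt.Exists
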